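import Mathlib
import Pool.Agent.Helper771.LieHomogNilp

/-!
# The varieties of nilpotent Lie algebras are logically perfect and logically regular
-/

set_option autoImplicit false

namespace Pool.Agent.Results.MP_8011ed_lc.Regular

open Pool.Agent.Helper771.LieHomog
open FirstOrder

universe u

/-- `μ ∈ A^m` and `ν ∈ B^m` have the same type (in `A` and `B`): they satisfy the same first-order formulas. -/
def EqualTypes (P : Type u) [Field P] {A B : Type u} [LieRing A] [LieAlgebra P A] [LieRing B] [LieAlgebra P B]
    {m : ℕ} (μ : Fin m → A) (ν : Fin m → B) : Prop :=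
  ∀ φ : (lieLang P).Formula (Fin m), φ.Realize μ ↔ φ.Realize ν

/-- `A` and `B` are isotypic: the same types of `m`-tuples are realised in `A` and in `B`, for all `m`. -/
def Isotypic (P : Type u) [Field P] (A B : Type u) [LieRing A] [LieAlgebra P A] [LieRing B] [LieAlgebra P B] : Prop :=
  ∀ m : ℕ, 1 ≤ m → (∀ μ : Fin m → A, ∃ ν : Fin m → B, EqualTypes P μ ν) ∧
    ∀ ν : Fin m → B, ∃ μ : Fin m → A, EqualTypes P μ ν

/-- `A` belongs to `Θ_{P,n}`: it is nilpotent of class at most `n`, i.e. all Lie products of `n + 1` elements vanish
(Mathlib's `lowerCentralSeries n` is spanned by these products). -/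
def InVariety (P : Type u) [Field P] (n : ℕ) (A : Type u) [LieRing A] [LieAlgebra P A] : Prop :=
  LieModule.lowerCentralSeries P A A n = ⊥

/-- `A` is logically separable in `Θ_{P,n}`. -/
def LogicallySeparable (P : Type u) [Field P] (n : ℕ) (A : Type u) [LieRing A] [LieAlgebra P A] : Prop :=
  ∀ (B : Type u) [LieRing B] [LieAlgebra P B], InVariety P n B → Isotypic P A B → Nonempty (A ≃ₗ⁅P⁆ B)

/-- `Θ_{P,n}` is logically perfect: every free algebra of finite rank is logically homogeneous. -/
def LogicallyPerfect (P : Type u) [Field P] (n : ℕ) : Prop :=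
  ∀ r : ℕ, LogicallyHomogeneous P (FreeNilpLie P r n)

/-- `Θ_{P,n}` is logically regular: every free algebra of finite rank is logically separable. -/
def LogicallyRegular (P : Type u) [Field P] (n : ℕ) : Prop :=
  ∀ r : ℕ, LogicallySeparable P n (FreeNilpLie P r n)

section

variable {P : Type u} [Field P]

theorem map_realize' {A B : Type u} [LieRing A] [LieAlgebra P A] [LieRing B] [LieAlgebra P B] (σ : A →ₗ⁅P⁆ B)
    {α : Type} (v : α → A) (t : (lieLang P).Term α) : σ (t.realize v) = t.realize (fun a => σ (v a)) := by
  induction t with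
  | var a => rfl
  | @func l f ts ih =>
    match l, f with
    | _, LieFn.zero => exact map_zero σ
    | _, LieFn.add =>
      change σ ((ts 0).realize v + (ts 1).realize v) = _
      rw [map_add, ih 0, ih 1]; rfl
    | _, LieFn.neg =>
      change σ (- (ts 0).realize v) = _
      rw [map_neg, ih 0]; rfl
    | _, LieFn.bracket =>
      change σ ⁅(ts 0).realize v, (ts 1).realize v⁆ = _
      rw [LieHom.map_lie, ih 0, ih 1]; rfl
    | _, LieFn.smul c =>
      change σ (c • (ts 0).realize v) = _
      rw [map_smul, ih 0]; rfl

theorem mem_iff {n : ℕ} {A : Type u} [LieRing A] [LieAlgebra P A] (h : InVariety P n A) : ∀ z ∈ gam P A n, z = 0 := by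
  intro z hz
  unfold gam at hz
  rw [h] at hz
  simpa using hz

/-- the free algebra belongs to the variety -/
theorem free_inVariety (r n : ℕ) : InVariety P n (FreeNilpLie P r n) := by
  unfold InVariety
  rw [eq_bot_iff]
  intro z hz
  rw [nilp_nil P r n z hz]
  exact Submodule.zero_mem _

/-- homogeneity implies separability -/
theorem separable_of_homogeneous {r n : ℕ} (hr : 1 ≤ r) (h : LogicallyHomogeneous P (FreeNilpLie P r n)) :
    LogicallySeparable P n (FreeNilpLie P r n) := by
  intro B _ _ hB hiso
  obtain ⟨y, hy⟩ := (hiso r hr).1 (gx P r n)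
  obtain ⟨f, hf⟩ := exists_lift P r n (mem_iff hB) y
  have hfy : (fun i => f (gx P r n i)) = y := funext hf
  have hinj : Function.Injective f := by
    intro a b hab
    obtain ⟨s, rfl⟩ := exists_term (nilp_gen P r n) a
    obtain ⟨t, rfl⟩ := exists_term (nilp_gen P r n) b
    rw [map_realize', map_realize', hfy] at hab
    have := (hy (Language.Term.equal s t)).2 (by rw [Language.Formula.realize_equal]; exact hab)
    rw [Language.Formula.realize_equal] at this
    exact this
  have hsurj : Function.Surjective f := by
    intro z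
    obtain ⟨μ, hμ⟩ := (hiso (r + 1) (by omega)).2 (Fin.snoc y z)
    -- the first `r` entries of `μ` have the type of the generators
    have h1 : SameType P (FreeNilpLie P r n) (gx P r n) (fun i : Fin r => μ i.castSucc) := by
      intro φ
      rw [hy φ]
      have h2 := hμ (φ.relabel (fun i : Fin r => i.castSucc))
      rw [Language.Formula.realize_relabel, Language.Formula.realize_relabel] at h2
      have h3 : (Fin.snoc y z : Fin (r + 1) → B) ∘ (fun i : Fin r => i.castSucc) = y := by
        funext i
        simp [Function.comp_apply]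
      rw [h3] at h2
      exact h2.symm
    obtain ⟨σ, hσ⟩ := h r hr _ _ h1
    obtain ⟨t, ht⟩ := exists_term (nilp_gen P r n) (σ.symm (μ (Fin.last r)))
    have h4 : μ (Fin.last r) = t.realize (fun i : Fin r => μ i.castSucc) := by
      have h5 : (fun i : Fin r => μ i.castSucc) = fun i => (σ : FreeNilpLie P r n →ₗ⁅P⁆ FreeNilpLie P r n) (gx P r n i) := by
        funext i
        exact (hσ i).symm
      rw [h5, ← map_realize', ht]
      change _ = σ (σ.symm _)
      rw [LieEquiv.apply_symm_apply]
    have h6 := (hμ (Language.Term.equal (Language.Term.var (Fin.last r))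
      (t.relabel (fun i : Fin r => i.castSucc)))).1 (by
        rw [Language.Formula.realize_equal, Language.Term.realize_relabel]
        exact h4)
    rw [Language.Formula.realize_equal, Language.Term.realize_relabel] at h6
    have h3 : (Fin.snoc y z : Fin (r + 1) → B) ∘ (fun i : Fin r => i.castSucc) = y := by
      funext i
      simp [Function.comp_apply]
    rw [h3] at h6
    have h7 : z = t.realize y := by
      simpa using h6
    refine ⟨t.realize (gx P r n), ?_⟩
    rw [map_realize', hfy, h7]
  exact ⟨LieEquiv.ofBijective f ⟨hinj, hsurj⟩⟩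

/-- rank `0` -/
theorem free_zero (n : ℕ) (z : FreeNilpLie P 0 n) : z = 0 := by
  have h1 : z ∈ LieSubalgebra.lieSpan P (FreeNilpLie P 0 n) (Set.range (gx P 0 n)) := by
    rw [nilp_gen]; trivial
  have h2 : Set.range (gx P 0 n) = ∅ := Set.range_eq_empty _
  rw [h2, LieSubalgebra.span_empty] at h1
  simpa using h1

theorem homogeneous_zero (n : ℕ) : LogicallyHomogeneous P (FreeNilpLie P 0 n) := by
  intro m _ μ ν _
  refine ⟨LieEquiv.refl, fun i => ?_⟩
  rw [free_zero n (μ i), free_zero n (ν i)]
  rfl

theorem separable_zero (n : ℕ) : LogicallySeparable P n (FreeNilpLie P 0 n) := by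
  intro B _ _ _ hiso
  have hB : ∀ z : B, z = 0 := by
    intro z
    obtain ⟨μ, hμ⟩ := (hiso 1 le_rfl).2 (fun _ => z)
    have h1 := (hμ (Language.Term.equal (Language.Term.var 0) (zeroT P))).1 (by
      rw [Language.Formula.realize_equal]
      exact free_zero n (μ 0))
    rw [Language.Formula.realize_equal] at h1
    exact h1
  refine ⟨LieEquiv.ofBijective (0 : FreeNilpLie P 0 n →ₗ⁅P⁆ B) ⟨fun a b _ => ?_, fun z => ⟨0, ?_⟩⟩⟩
  · rw [free_zero n a, free_zero n b]
  · rw [hB z]; rfl

end

/-- **The theorem.** For every field `P` and every `n ≥ 1` the variety `Θ_{P,n}` of Lie algebras over `P` that are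
nilpotent of class at most `n` is logically perfect and logically regular. -/
theorem result (P : Type u) [Field P] (n : ℕ) (hn : 1 ≤ n) : LogicallyPerfect P n ∧ LogicallyRegular P n := by
  constructor
  · intro r
    rcases Nat.eq_zero_or_pos r with rfl | hr
    · exact homogeneous_zero n
    · exact nilpotent_homogeneous P r n hr hn
  · intro r
    rcases Nat.eq_zero_or_pos r with rfl | hr
    · exact separable_zero n
    · exact separable_of_homogeneous hr (nilpotent_homogeneous P r n hr hn)

end Pool.Agent.Results.MP_8011ed_lc.Regular
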